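import Pool.Agent.N569.FB.Defs

/-!
# Explicit bounds for the exponents of the normalised bracket of a braid word in a box
-/

set_option autoImplicit false

namespace Pool.Agent.N607.FB

open Pool.Agent.H891R2.Jones Pool.Agent.W639.RB Pool.Agent.TH561 Pool.Agent.N569.TW Pool.Agent.N569.VT
  Pool.Agent.N569.FB Pool.Agent.H297.FT Finset LaurentPolynomial

variable {m k : ℕ}

section ex

theorem ex_mono {p : ℤ[T;T⁻¹]} {b c : ℤ} (h : Ex p b) (hbc : b ≤ c) : Ex p c :=
  fun n hn => (h n hn).trans hbc

theorem ex_zero (b : ℤ) : Ex 0 b := by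
  intro n hn
  exact absurd (by simp) hn

theorem ex_add {p q : ℤ[T;T⁻¹]} {b : ℤ} (hp : Ex p b) (hq : Ex q b) : Ex (p + q) b := by
  intro n hn
  rw [AddMonoidAlgebra.coeff_add, Finsupp.add_apply] at hn
  by_cases h : p.coeff n = 0
  · rw [h, zero_add] at hn
    exact hq n hn
  · exact hp n h

theorem ex_neg {p : ℤ[T;T⁻¹]} {b : ℤ} (hp : Ex p b) : Ex (-p) b := by
  intro n hn
  rw [AddMonoidAlgebra.coeff_neg, Finsupp.neg_apply] at hn
  exact hp n (fun h => hn (by rw [h, neg_zero]))

theorem ex_T {n b : ℤ} (h : |n| ≤ b) : Ex (T n) b := by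
  intro k hk
  rw [T_apply] at hk
  split_ifs at hk with h1
  · rw [← h1]
    exact h
  · exact absurd rfl hk

theorem ex_mul {p q : ℤ[T;T⁻¹]} {b c : ℤ} (hp : Ex p b) (hq : Ex q c) : Ex (p * q) (b + c) := by
  intro n hn
  classical
  have h := AddMonoidAlgebra.support_coeff_mul_subset p q (Finsupp.mem_support_iff.2 hn)
  rw [Finset.mem_add] at h
  obtain ⟨x, hx, y, hy, hxy⟩ := h
  have h1 := hp x (Finsupp.mem_support_iff.1 hx)
  have h2 := hq y (Finsupp.mem_support_iff.1 hy)
  rw [← hxy]
  exact (abs_add_le x y).trans (add_le_add h1 h2)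

theorem ex_list {α : Type*} (l : List α) (f : α → ℤ[T;T⁻¹]) (b : ℤ) (h : ∀ x ∈ l, Ex (f x) b) :
    Ex (l.map f).sum b := by
  induction l with
  | nil => exact ex_zero b
  | cons a l ih =>
    rw [List.map_cons, List.sum_cons]
    exact ex_add (h a List.mem_cons_self) (ih fun x hx => h x (List.mem_cons_of_mem _ hx))

theorem ex_sum {ι : Type*} (s : Finset ι) (f : ι → ℤ[T;T⁻¹]) (b : ℤ) (h : ∀ x ∈ s, Ex (f x) b) :
    Ex (∑ x ∈ s, f x) b := by
  classical
  induction s using Finset.induction_on with
  | empty => exact ex_zero b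
  | insert a t ha ih =>
    rw [Finset.sum_insert ha]
    exact ex_add (h a (Finset.mem_insert_self a t)) (ih fun x hx => h x (Finset.mem_insert_of_mem hx))

theorem ex_dl : Ex dl 2 := by
  unfold dl
  rw [sub_eq_add_neg]
  exact ex_add (ex_neg (ex_T (by norm_num))) (ex_neg (ex_T (by norm_num)))

theorem ex_dl_pow (n : ℕ) : Ex (dl ^ n) (2 * n) := by
  induction n with
  | zero =>
    rw [pow_zero, ← T_zero]
    exact ex_T (by simp)
  | succ n ih =>
    rw [pow_succ]
    refine ex_mono (ex_mul ih ex_dl) ?_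
    push_cast
    linarith

/-- the division by `dl` -/
theorem ex_div {b : ℤ[T;T⁻¹]} {E : ℤ} (h4 : Ex (dl * b) E) : Ex b (E - 2) := by
  intro n hne
  have hsup : b.coeff.support.Nonempty := ⟨n, Finsupp.mem_support_iff.2 hne⟩
  have hM1 : b.coeff (b.coeff.support.max' hsup) ≠ 0 := Finsupp.mem_support_iff.1 (Finset.max'_mem _ _)
  have hM2 : ∀ k, b.coeff.support.max' hsup < k → b.coeff k = 0 := by
    intro k hk
    by_contra hk'
    have := Finset.le_max' _ k (Finsupp.mem_support_iff.2 hk')
    omega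
  have hM3 : n ≤ b.coeff.support.max' hsup := Finset.le_max' _ n (Finsupp.mem_support_iff.2 hne)
  have hm1 : b.coeff (b.coeff.support.min' hsup) ≠ 0 := Finsupp.mem_support_iff.1 (Finset.min'_mem _ _)
  have hm2 : ∀ k, k < b.coeff.support.min' hsup → b.coeff k = 0 := by
    intro k hk
    by_contra hk'
    have := Finset.min'_le _ k (Finsupp.mem_support_iff.2 hk')
    omega
  have hm3 : b.coeff.support.min' hsup ≤ n := Finset.min'_le _ n (Finsupp.mem_support_iff.2 hne)
  revert hM1 hM2 hM3 hm1 hm2 hm3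
  generalize b.coeff.support.max' hsup = M
  generalize b.coeff.support.min' hsup = M'
  intro hM1 hM2 hM3 hm1 hm2 hm3
  have h7 := h4 (M + 2) (by
    rw [coeff_dl_mul, hM2 (M + 2 + 2) (by omega), sub_zero, add_sub_cancel_right]
    exact neg_ne_zero.2 hM1)
  have h8 := h4 (M' - 2) (by
    rw [coeff_dl_mul, hm2 (M' - 2 - 2) (by omega), neg_zero, zero_sub, sub_add_cancel]
    exact neg_ne_zero.2 hm1)
  have h9 := (abs_le.1 h7).2
  have h10 := (abs_le.1 h8).1
  rw [abs_le]
  constructor
  · linarith
  · linarith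

end ex

theorem terms_abs (W : List (Bool × ℕ)) : ∀ t ∈ terms W, |t.1| ≤ W.length ∧ t.2.length ≤ W.length := by
  induction W with
  | nil =>
    intro t ht
    simp [terms] at ht
    subst ht
    simp
  | cons x W ih =>
    intro t ht
    rw [terms, List.mem_append, List.mem_map, List.mem_map] at ht
    rw [List.length_cons]
    rcases ht with ⟨u, hu, rfl⟩ | ⟨u, hu, rfl⟩
    · obtain ⟨h1, h2⟩ := ih u hu
      refine ⟨?_, by simp only; omega⟩
      simp only
      have h3 : |sgn x| = 1 := by
        rcases sgn_cases x with h | h <;> rw [h] <;> simp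
      have h4 := abs_add_le (sgn x) u.1
      push_cast
      linarith
    · obtain ⟨h1, h2⟩ := ih u hu
      refine ⟨?_, by simp only [List.length_cons]; omega⟩
      simp only
      have h3 : |-sgn x| = 1 := by
        rcases sgn_cases x with h | h <;> rw [h] <;> simp
      have h4 := abs_add_le (-sgn x) u.1
      push_cast
      linarith

theorem lam_len (X : Lk m) (L : List ℕ) (hL : ∀ i ∈ L, i + 1 < m) : X.lam L ≤ X.lam [] + L.length := by
  induction L using List.reverseRecOn with
  | nil => simp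
  | append_singleton L i ih =>
    have h1 : ∀ i ∈ L, i + 1 < m := fun j hj => hL j (List.mem_append_left _ hj)
    have h2 : i + 1 < m := hL i (List.mem_append_right _ (List.mem_singleton_self i))
    have h3 := Pool.Agent.N569.VT.lam_add X L h1 i h2
    have h4 := ih h1
    rw [List.length_append, List.length_singleton]
    omega

theorem push_len (O : Outer m) (b : Bool) (i : ℕ) (hi : i + 1 < m) :
    (O.push b i).crossings.length = O.crossings.length + 1 := by
  unfold Outer.push
  rw [dif_pos hi]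
  simp

theorem draw_len (W : List (Bool × ℕ)) : ∀ O : Outer m, (∀ x ∈ W, x.2 + 1 < m) →
    (draw O W).crossings.length = O.crossings.length + W.length := by
  induction W with
  | nil => intro O _; rfl
  | cons x W ih =>
    intro O hW
    have h1 : draw O (x :: W) = draw (O.push x.1 x.2) W := rfl
    rw [h1, ih _ (fun y hy => hW y (List.mem_cons_of_mem _ hy)), push_len O x.1 x.2 (hW x List.mem_cons_self),
      List.length_cons]
    omega

theorem weight_abs {n : ℕ} (σ : Fin n → Bool) : |Diagram.weight σ| ≤ n := by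
  rw [weight_eq, abs_le]
  have h := nB_le σ
  constructor
  · have : (nB σ : ℤ) ≤ n := by exact_mod_cast h
    linarith
  · have : (0 : ℤ) ≤ nB σ := by positivity
    linarith

/-- the exponents of the bracket -/
theorem bracket_ex (hm : 0 < m) (O : Outer m) (W : List (Bool × ℕ)) (hW : ∀ x ∈ W, x.2 + 1 < m) (s : ℕ)
    (hs : O.close.loops (fun _ => true) ≤ s) :
    Ex (draw O W).close.bracket (3 * O.crossings.length + 2 * s + 3 * W.length - 2) := by
  refine ex_div ?_
  rw [bracket_states hm O W hW]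
  refine ex_sum _ _ _ fun σ _ => ?_
  have h1 := lam_all O (nB σ) σ rfl
  have h2 := nB_le σ
  rw [lam_zero] at h1
  have h3 : Ex ((terms W).map (fun t : ℤ × List ℕ => (T t.1 * dl ^ (ofO O σ).lam t.2 : ℤ[T;T⁻¹]))).sum
      (W.length + 2 * (s + O.crossings.length + W.length)) := by
    refine ex_list _ _ _ fun t ht => ?_
    obtain ⟨h4, h5⟩ := terms_abs W t ht
    have h6 := lam_len (ofO O σ) t.2 (terms_mem W hW t ht)
    refine ex_mul (ex_T h4) (ex_mono (ex_dl_pow _) ?_)
    have h7 : (ofO O σ).lam t.2 ≤ s + O.crossings.length + W.length := by omega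
    have h8 : ((ofO O σ).lam t.2 : ℤ) ≤ s + O.crossings.length + W.length := by exact_mod_cast h7
    linarith
  refine ex_mono (ex_mul (ex_T (weight_abs σ)) h3) ?_
  linarith

/-- FB4 (1) -/
theorem fPoly_ex (hm : 0 < m) (O : Outer m) (W : List (Bool × ℕ)) (hW : ∀ x ∈ W, x.2 + 1 < m) (s : ℕ)
    (hs : O.close.loops (fun _ => true) ≤ s) :
    Ex (draw O W).close.fPoly (6 * O.crossings.length + 2 * s + 6 * W.length) := by
  intro n hn
  rw [Pool.Agent.N569.VT.fPoly_coeff] at hn
  have h1 := bracket_ex hm O W hW s hs _ (right_ne_zero_of_mul hn)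
  have h2 := abs_writhe (draw O W).close
  have h3 : (draw O W).close.crossings.length = O.crossings.length + W.length := draw_len W O hW
  rw [h3] at h2
  push_cast at h2
  have h4 := abs_le.1 h1
  have h5 := abs_le.1 h2
  rw [abs_le]
  constructor
  · linarith [h4.1, h5.2]
  · linarith [h4.2, h5.1]

/-- FB4 (2) -/
theorem loops_le (hm : 0 < m) (O : Outer m) (W : List (Bool × ℕ)) (hW : ∀ x ∈ W, x.2 + 1 < m)
    (h : (draw O W).close.fPoly = 1) : O.close.loops (fun _ => true) ≤ O.crossings.length + m := by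
  obtain ⟨κ, hκ1, hκ2⟩ := pieces hm O (Finset.range (m - 1)) (fun i hi => by
    rw [Finset.mem_range] at hi; omega)
  rw [Finset.card_range, lam_zero] at hκ2
  have hdvd := dvd_bracketO hm O W hW (Finset.range (m - 1)) (fun x hx => by
    rw [Finset.mem_range]; have := hW x hx; omega) κ hκ1
  have h1 := Pool.Agent.N569.VT.pow_le _ 0 κ (by rw [h, pow_zero]) hdvd
  omega

end Pool.Agent.N607.FB
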